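import Pool.Agent.Helper20.Griff.Goals
import Pool.Agent.Helper94.Griff.Vol

/-!
# G-A8: small strictly positive perturbations of `T`
-/

open MvPolynomial Pool.Agent.Helper94.Griff Pool.Agent.Helper20.Griff
open scoped Matrix

namespace Pool.Agent.Helper90.GriffCE

section maps

variable {R S : Type*} [CommRing R] [CommRing S]

theorem quatMat_map (f : R →+* S) (v : Fin 15 → R) :
    quatMat (fun i => f (v i)) = (quatMat v).map f := by
  ext i j
  fin_cases i <;> fin_cases j <;> simp [quatMat]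

theorem coordMat_map (f : R →+* S) (X : Matrix (Fin 6) (Fin 6) R) :
    coordMat (X.map f) = fun i => f (coordMat X i) := by
  funext i
  fin_cases i <;> simp [coordMat]

theorem reflect_map (f : R →+* S) (v : Fin 15 → R) :
    reflect (fun i => f (v i)) = fun i => f (reflect v i) := by
  funext i
  fin_cases i <;> simp [reflect]

theorem Tmat_map (f : R →+* S) (X : Matrix (Fin 12) (Fin 12) R) :
    Tmat (X.map f) = (Tmat X).map f := by
  have h1 : blk₁ (X.map f) = (blk₁ X).map f := rfl
  have h2 : blk₂ (X.map f) = (blk₂ X).map f := rfl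
  unfold Tmat
  rw [h1, h2, coordMat_map, coordMat_map, reflect_map]
  have e1 : ((fun i => f (coordMat (blk₁ X) i)) + fun i => f (coordMat (blk₂ X) i)) =
      fun i => f ((coordMat (blk₁ X) + coordMat (blk₂ X)) i) := by
    funext i; simp
  have e2 : ((fun i => f (reflect (coordMat (blk₁ X)) i)) + fun i => f (coordMat (blk₂ X) i)) =
      fun i => f ((reflect (coordMat (blk₁ X)) + coordMat (blk₂ X)) i) := by
    funext i; simp
  rw [e1, e2, quatMat_map, quatMat_map]
  rw [Matrix.reindex_apply, Matrix.reindex_apply, ← Matrix.submatrix_map, Matrix.fromBlocks_map]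
  simp [Matrix.map_zero]

theorem quatMat_add (v w : Fin 15 → R) : quatMat (v + w) = quatMat v + quatMat w := by
  ext i j
  fin_cases i <;> fin_cases j <;> simp [quatMat] <;> ring

theorem quatMat_smul (c : R) (v : Fin 15 → R) : quatMat (c • v) = c • quatMat v := by
  ext i j
  fin_cases i <;> fin_cases j <;> simp [quatMat]

theorem coordMat_add (X Y : Matrix (Fin 6) (Fin 6) R) :
    coordMat (X + Y) = coordMat X + coordMat Y := by
  funext i
  fin_cases i <;> simp [coordMat] <;> ring

theorem coordMat_smul (c : R) (X : Matrix (Fin 6) (Fin 6) R) :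
    coordMat (c • X) = c • coordMat X := by
  funext i
  fin_cases i <;> simp [coordMat] <;> ring

theorem reflect_add (v w : Fin 15 → R) : reflect (v + w) = reflect v + reflect w := by
  funext i
  fin_cases i <;> simp [reflect] <;> ring

theorem reflect_smul (c : R) (v : Fin 15 → R) : reflect (c • v) = c • reflect v := by
  funext i
  fin_cases i <;> simp [reflect] <;> ring

theorem Tmat_add (X Y : Matrix (Fin 12) (Fin 12) R) : Tmat (X + Y) = Tmat X + Tmat Y := by
  have h1 : blk₁ (X + Y) = blk₁ X + blk₁ Y := rfl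
  have h2 : blk₂ (X + Y) = blk₂ X + blk₂ Y := rfl
  unfold Tmat
  rw [h1, h2, coordMat_add, coordMat_add, reflect_add]
  have e1 : (coordMat (blk₁ X) + coordMat (blk₁ Y)) + (coordMat (blk₂ X) + coordMat (blk₂ Y)) =
      (coordMat (blk₁ X) + coordMat (blk₂ X)) + (coordMat (blk₁ Y) + coordMat (blk₂ Y)) := by
    abel
  have e2 : (reflect (coordMat (blk₁ X)) + reflect (coordMat (blk₁ Y))) +
      (coordMat (blk₂ X) + coordMat (blk₂ Y)) =
      (reflect (coordMat (blk₁ X)) + coordMat (blk₂ X)) +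
        (reflect (coordMat (blk₁ Y)) + coordMat (blk₂ Y)) := by
    abel
  rw [e1, e2, quatMat_add (coordMat (blk₁ X) + coordMat (blk₂ X)),
    quatMat_add (reflect (coordMat (blk₁ X)) + coordMat (blk₂ X))]
  have e3 := Matrix.fromBlocks_add (quatMat (coordMat (blk₁ X) + coordMat (blk₂ X)))
    (0 : Matrix (Fin 6) (Fin 6) R) (0 : Matrix (Fin 6) (Fin 6) R)
    (quatMat (reflect (coordMat (blk₁ X)) + coordMat (blk₂ X)))
    (quatMat (coordMat (blk₁ Y) + coordMat (blk₂ Y))) 0 0
    (quatMat (reflect (coordMat (blk₁ Y)) + coordMat (blk₂ Y)))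
  rw [add_zero] at e3
  rw [← e3]
  rfl

theorem Tmat_smul (c : R) (X : Matrix (Fin 12) (Fin 12) R) : Tmat (c • X) = c • Tmat X := by
  have h1 : blk₁ (c • X) = c • blk₁ X := rfl
  have h2 : blk₂ (c • X) = c • blk₂ X := rfl
  unfold Tmat
  rw [h1, h2, coordMat_smul, coordMat_smul, reflect_smul, ← smul_add, ← smul_add, quatMat_smul,
    quatMat_smul]
  have e3 := Matrix.fromBlocks_smul c (quatMat (coordMat (blk₁ X) + coordMat (blk₂ X)))
    (0 : Matrix (Fin 6) (Fin 6) R) (0 : Matrix (Fin 6) (Fin 6) R)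
    (quatMat (reflect (coordMat (blk₁ X)) + coordMat (blk₂ X)))
  rw [smul_zero] at e3
  rw [← e3]
  rfl

/-- `Tmat` as a linear map. -/
noncomputable def Tlin (R : Type*) [CommRing R] :
    Matrix (Fin 12) (Fin 12) R →ₗ[R] Matrix (Fin 12) (Fin 12) R where
  toFun := Tmat
  map_add' := Tmat_add
  map_smul' := Tmat_smul

theorem Tmat_expand (X : Matrix (Fin 12) (Fin 12) R) :
    Tmat X = ∑ p, ∑ q, X p q • Tmat (Matrix.single p q (1 : R)) := by
  conv_lhs => rw [Matrix.matrix_eq_sum_single X]
  have h : ∀ Y, Tmat Y = Tlin R Y := fun Y => rfl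
  rw [h, map_sum]
  refine Finset.sum_congr rfl fun p _ => ?_
  rw [map_sum]
  refine Finset.sum_congr rfl fun q _ => ?_
  rw [h, ← map_smul, Matrix.smul_single, smul_eq_mul, mul_one]

theorem Tmat_single_map (f : R →+* S) (p q : Fin 12) :
    Tmat (Matrix.single p q (1 : S)) = (Tmat (Matrix.single p q (1 : R))).map f := by
  rw [← Tmat_map]
  congr 1
  ext i j
  simp only [Matrix.map_apply, Matrix.single_apply]
  split_ifs <;> simp

end maps

/-- The real polynomial matrix. -/
noncomputable def genN : Matrix (Fin 12) (Fin 12) (MvPolynomial (Fin 12 × Fin 12) (Polynomial ℝ)) :=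
  Matrix.of fun a b => ∑ p, ∑ q,
    C (Polynomial.C (Tmat (Matrix.single p q (1 : ℝ)) a b) +
      if p = q then (if a = b then Polynomial.X else 0) else 0) * X (p, q)

/-- Evaluation at `ε`. -/
noncomputable def phi (ε : ℝ) : Polynomial ℝ →+* ℂ :=
  (Complex.ofRealHom).comp (Polynomial.evalRingHom ε)

theorem genN_map (ε : ℝ) : genN.map (MvPolynomial.map (phi ε)) =
    Matrix.of fun a b => ∑ p, ∑ q,
      C ((Tcoef p q + if p = q then (ε : ℂ) • 1 else 0 : Matrix (Fin 12) (Fin 12) ℂ) a b)
        * (X (p, q) : Forms (Fin 12)) := by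
  ext1 a b
  simp only [genN, Matrix.map_apply, Matrix.of_apply, map_sum, map_mul, map_X, map_C]
  refine Finset.sum_congr rfl fun p _ => Finset.sum_congr rfl fun q _ => ?_
  congr 2
  have h1 : Tcoef p q = (Tmat (Matrix.single p q (1 : ℝ))).map Complex.ofRealHom :=
    Tmat_single_map Complex.ofRealHom p q
  rw [h1]
  by_cases hpq : p = q
  · by_cases hab : a = b
    · subst hpq hab
      simp [phi]
    · subst hpq
      simp [phi, hab]
  · simp [phi, hpq]

/-- The polynomial `volCoeff (det (M ε))`. -/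
noncomputable def volP : Polynomial ℝ :=
  ∑ σ : Equiv.Perm (Fin 12), ((Equiv.Perm.sign σ : ℤ) : Polynomial ℝ) *
    MvPolynomial.coeff (∑ p, Finsupp.single (p, σ p) 1) genN.det

theorem vol_eq (ε : ℝ) :
    volCoeff (Matrix.det (Matrix.of fun a b => ∑ p, ∑ q,
      C ((Tcoef p q + if p = q then (ε : ℂ) • 1 else 0 : Matrix (Fin 12) (Fin 12) ℂ) a b)
        * (X (p, q) : Forms (Fin 12)))) = ((volP.eval ε : ℝ) : ℂ) := by
  have h : ((volP.eval ε : ℝ) : ℂ) = phi ε volP := rfl
  rw [h, ← genN_map]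
  have h2 : (genN.map (MvPolynomial.map (phi ε))).det = MvPolynomial.map (phi ε) genN.det :=
    (RingHom.map_det (MvPolynomial.map (phi ε)) genN).symm
  rw [h2]
  unfold volCoeff volP
  rw [map_sum]
  refine Finset.sum_congr rfl fun σ _ => ?_
  rw [map_mul, MvPolynomial.coeff_map, map_intCast]

theorem Tmat_gen : Tmat (gen (Fin 12)) = Matrix.of fun a b => ∑ p, ∑ q,
      C ((Tcoef p q + if p = q then ((0 : ℝ) : ℂ) • 1 else 0 : Matrix (Fin 12) (Fin 12) ℂ) a b)
        * (X (p, q) : Forms (Fin 12)) := by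
  rw [Tmat_expand]
  ext1 a b
  rw [Matrix.sum_apply]
  simp only [Matrix.sum_apply, Matrix.of_apply]
  refine Finset.sum_congr rfl fun p _ => Finset.sum_congr rfl fun q _ => ?_
  have h1 : Tmat (Matrix.single p q (1 : Forms (Fin 12))) = (Tcoef p q).map C :=
    Tmat_single_map (C : ℂ →+* Forms (Fin 12)) p q
  rw [h1]
  have h2 : (Tcoef p q + if p = q then ((0 : ℝ) : ℂ) • 1 else 0 : Matrix (Fin 12) (Fin 12) ℂ) =
      Tcoef p q := by
    simp
  rw [h2, Matrix.smul_apply, Matrix.map_apply, smul_eq_mul, mul_comm]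
  rfl

theorem eps (h : StmtVol) : StmtEps := by
  have h0 : volP.eval 0 = -341760 := by
    have h1 := vol_eq 0
    rw [← Tmat_gen] at h1
    rw [StmtVol] at h
    rw [h] at h1
    have h2 : ((-341760 : ℝ) : ℂ) = ((volP.eval 0 : ℝ) : ℂ) := by
      rw [← h1]
      push_cast
      rfl
    exact (Complex.ofReal_injective h2).symm
  have hc : ContinuousAt (fun x : ℝ => volP.eval x) 0 := volP.continuous.continuousAt
  have hev : ∀ᶠ x in nhds (0 : ℝ), volP.eval x < 0 := by
    apply hc.eventually_lt_const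
    show volP.eval 0 < 0
    rw [h0]
    norm_num
  obtain ⟨δ, hδ, hδ'⟩ := Metric.eventually_nhds_iff.1 hev
  refine ⟨δ / 2, by positivity, volP.eval (δ / 2), hδ' ?_, vol_eq (δ / 2)⟩
  rw [Real.dist_eq, sub_zero, abs_of_pos (by positivity)]
  linarith

end Pool.Agent.Helper90.GriffCE
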